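import Pool.Agent.Lib.BL10.All

set_option autoImplicit false

namespace Pool.Agent.Results.MP_f44fcb_an.LengthMultiplicity

open Pool.Agent.Lib.BL10

theorem result (ι : Type) [Fintype ι] (Q : Table ι) (hQ : Q.Rational) (ε : ℝ) (hε : 0 < ε) :
    ∃ C : ℝ, ∀ (l : ℝ) (F : Finset (Orbit ι)), 0 ≤ l →
      (∀ γ ∈ F, Closed Q γ ∧ γ.len = l) →
      (F : Set (Orbit ι)).Pairwise (fun γ γ' => ¬ SameBand Q γ γ') →
      (F.card : ℝ) ≤ C * (1 + l) ^ ε :=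
  st_RES ι Q hQ ε hε

end Pool.Agent.Results.MP_f44fcb_an.LengthMultiplicity
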